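import Pool.Agent.helper55.BL.Spec

set_option autoImplicit false

namespace Pool.Agent.helper55.BL

open Finset
open scoped Classical
open Pool.Agent.helper61.BM (Clo dg)

theorem STW_pick {V : Type} (G : SimpleGraph V) (A : Finset V) (F : Finset (Finset V))
    (hF : ∀ E ∈ F, Frag G A E) (hd : ∀ E ∈ F, ∀ E' ∈ F, E ≠ E' → Disjoint E E')
    (h3 : 3 ≤ F.card) (x : V) : ∃ E ∈ F, x ∉ E ∧ ∃ y, y ∉ E ∧ y ≠ x := by
  obtain ⟨a, ha, b, hb, c, hc, hab, hac, hbc⟩ := Finset.two_lt_card.mp (by omega : 2 < F.card)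
  have hne : ∀ E ∈ F, ∃ y, y ∈ E := fun E hE => (hF E hE).ne
  have hdis : ∀ E ∈ F, ∀ E' ∈ F, E ≠ E' → ∀ y, y ∈ E → y ∉ E' := by
    intro E hE E' hE' hEE y hy hy'
    exact (Finset.disjoint_left.mp (hd E hE E' hE' hEE)) hy hy'
  by_cases hxa : x ∈ a
  · obtain ⟨y, hy⟩ := hne c hc
    refine ⟨b, hb, hdis a ha b hb hab x hxa, y, hdis c hc b hb (Ne.symm hbc) y hy, ?_⟩
    rintro rfl
    exact hdis a ha c hc hac y hxa hy
  · by_cases hxb : x ∈ b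
    · obtain ⟨y, hy⟩ := hne c hc
      refine ⟨a, ha, hxa, y, hdis c hc a ha (Ne.symm hac) y hy, ?_⟩
      rintro rfl
      exact hdis b hb c hc hbc y hxb hy
    · obtain ⟨y, hy⟩ := hne b hb
      refine ⟨a, ha, hxa, y, hdis b hb a ha (Ne.symm hab) y hy, ?_⟩
      rintro rfl
      exact hxb hy

theorem STW_core {V : Type} (G : SimpleGraph V) (A S : Finset V) (F : Finset (Finset V))
    (hT : Two G) (hF : ∀ E ∈ F, Frag G A E ∧ nbA G A E = S)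
    (x : V) (B C : Finset V)
    (hBC : Disjoint B C) (hxB : x ∉ B) (hxC : x ∉ C) (hC : C.Nonempty)
    (hCW : ∀ v ∈ C, v ∈ S ∨ ∃ E ∈ F, v ∈ E)
    (hWS : ∀ v ∈ S, v ≠ x → v ∈ B ∨ v ∈ C)
    (hWF : ∀ E ∈ F, ∀ v ∈ E, v ≠ x → v ∈ B ∨ v ∈ C)
    (hno : ∀ u ∈ B, ∀ v ∈ C, ¬ G.Adj u v) (E₁ : Finset V) (hE₁ : E₁ ∈ F) (hxE₁ : x ∉ E₁)
    (s : V) (hs : s ∈ S) (hsx : s ≠ x) (hsB : s ∈ B) : False := by
  have hadj : ∀ E ∈ F, ∀ w ∈ S, ∃ u ∈ E, G.Adj u w := by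
    intro E hE w hw
    rw [← (hF E hE).2] at hw
    unfold nbA at hw
    rw [Finset.mem_filter] at hw
    obtain ⟨-, u, hu, hadj⟩ := hw
    exact ⟨u, hu, hadj⟩
  have hside : ∀ E ∈ F, x ∉ E → ∀ v ∈ E, v ∈ B := by
    intro E hE hxE v hv
    obtain ⟨u, hu, hus⟩ := hadj E hE s hs
    have huB : u ∈ B := by
      have hux : u ≠ x := by
        rintro rfl
        exact hxE hu
      rcases hWF E hE u hu hux with h | h
      · exact h
      · exact absurd hus.symm (hno s hsB u h)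
    by_contra hvB
    obtain ⟨a, ha, b, hb, hbn, hab⟩ := (hF E hE).1.cn (E.filter (fun w => w ∈ B))
      (Finset.filter_subset _ _) ⟨u, Finset.mem_filter.mpr ⟨hu, huB⟩⟩ (by
        intro heq
        have : v ∈ E.filter (fun w => w ∈ B) := by
          rw [heq]
          exact hv
        exact hvB (Finset.mem_filter.mp this).2)
    have haB := (Finset.mem_filter.mp ha).2
    have hbx : b ≠ x := by
      rintro rfl
      exact hxE hb
    rcases hWF E hE b hb hbx with h | h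
    · exact hbn (Finset.mem_filter.mpr ⟨hb, h⟩)
    · exact hno a haB b h hab
  have hSB : ∀ v ∈ S, v ≠ x → v ∈ B := by
    intro v hv hvx
    rcases hWS v hv hvx with h | h
    · exact h
    · obtain ⟨u, hu, huv⟩ := hadj E₁ hE₁ v hv
      exact absurd huv (hno u (hside E₁ hE₁ hxE₁ u hu) v h)
  have hBn : ∀ v, v ∈ B → v ∉ C := fun v hv hv' => (Finset.disjoint_left.mp hBC) hv hv'
  have hCE : ∀ v ∈ C, ∃ E ∈ F, v ∈ E ∧ x ∈ E := by
    intro v hv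
    have hvx : v ≠ x := by
      rintro rfl
      exact hxC hv
    rcases hCW v hv with h | ⟨E, hE, h⟩
    · exact absurd hv (hBn v (hSB v h hvx))
    · refine ⟨E, hE, h, ?_⟩
      by_contra hxE
      exact hBn v (hside E hE hxE v h) hv
  obtain ⟨u, hu, v, hvC, hvx, huv⟩ := hT x C hxC hC ⟨s, hBn s hsB, hsx⟩
  obtain ⟨E, hE, huE, -⟩ := hCE u hu
  have hvB : v ∈ B := by
    rcases (hF E hE).1.nb u huE v huv with h | h
    · rcases hWF E hE v h hvx with h' | h'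
      · exact h'
      · exact absurd h' hvC
    · apply hSB v _ hvx
      rw [← (hF E hE).2]
      unfold nbA
      rw [Finset.mem_filter]
      exact ⟨h, u, huE, huv⟩
  exact hno v hvB u hu huv.symm

theorem STW : STW_stmt := by
  intro V _ G A S F hT hF hd h3 x B hxB hB hy
  by_contra hcon
  have hF' : ∀ E ∈ F, Frag G A E := fun E hE => (hF E hE).1
  obtain ⟨E₁, hE₁, hxE₁, y₁, hy₁, hy₁x⟩ := STW_pick G A F hF' hd h3 (x : V)
  obtain ⟨u, hu, s, hsE, hsx, hus⟩ := hT (x : V) E₁ hxE₁ (hF' E₁ hE₁).ne ⟨y₁, hy₁, hy₁x⟩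
  have hsS : s ∈ S := by
    rcases (hF' E₁ hE₁).nb u hu s hus with h | h
    · exact absurd h hsE
    · rw [← (hF E₁ hE₁).2]
      unfold nbA
      rw [Finset.mem_filter]
      exact ⟨h, u, hu, hus⟩
  obtain ⟨y, hyB, hyx⟩ := hy
  have hBv : ∀ v : V, v ∈ B.image (Subtype.val : ↥(S ∪ F.biUnion id) → V) ↔
      ∃ h : v ∈ S ∪ F.biUnion id, (⟨v, h⟩ : ↥(S ∪ F.biUnion id)) ∈ B := by
    intro v
    rw [Finset.mem_image]
    constructor
    · rintro ⟨w, hw, rfl⟩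
      exact ⟨w.2, hw⟩
    · rintro ⟨h, hv⟩
      exact ⟨⟨v, h⟩, hv, rfl⟩
  have hW : ∀ v : V, v ∈ S ∪ F.biUnion id ↔ v ∈ S ∨ ∃ E ∈ F, v ∈ E := by
    intro v
    rw [Finset.mem_union, Finset.mem_biUnion]
    rfl
  set Bv : Finset V := B.image (Subtype.val : ↥(S ∪ F.biUnion id) → V) with hBvdef
  set Cv : Finset V := ((S ∪ F.biUnion id) \ Bv).erase (x : V) with hCvdef
  have hCm : ∀ v : V, v ∈ Cv ↔ v ≠ (x : V) ∧ v ∈ S ∪ F.biUnion id ∧ v ∉ Bv := by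
    intro v
    rw [hCvdef, Finset.mem_erase, Finset.mem_sdiff]
  have hxBv : (x : V) ∉ Bv := by
    intro h
    obtain ⟨h1, h2⟩ := (hBv (x : V)).mp h
    exact hxB h2
  have hxCv : (x : V) ∉ Cv := by
    intro h
    exact ((hCm (x : V)).mp h).1 rfl
  have hBCv : Disjoint Bv Cv := by
    rw [Finset.disjoint_left]
    intro v hv hv'
    exact ((hCm v).mp hv').2.2 hv
  have hBvne : Bv.Nonempty := by
    obtain ⟨b, hb⟩ := hB
    exact ⟨b.1, (hBv b.1).mpr ⟨b.2, hb⟩⟩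
  have hCvne : Cv.Nonempty := by
    refine ⟨y.1, (hCm y.1).mpr ⟨fun h => hyx (Subtype.ext h), y.2, fun h => ?_⟩⟩
    obtain ⟨h1, h2⟩ := (hBv y.1).mp h
    exact hyB h2
  have hno : ∀ u ∈ Bv, ∀ v ∈ Cv, ¬ G.Adj u v := by
    intro u hu v hv huv
    obtain ⟨h1, h2⟩ := (hBv u).mp hu
    obtain ⟨h3', h4, h5⟩ := (hCm v).mp hv
    apply hcon
    refine ⟨⟨u, h1⟩, h2, ⟨v, h4⟩, fun h => h5 ((hBv v).mpr ⟨h4, h⟩), fun h => h3' ?_, huv⟩
    exact congrArg Subtype.val h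
  have hcov : ∀ v : V, v ∈ S ∪ F.biUnion id → v ≠ (x : V) → v ∈ Bv ∨ v ∈ Cv := by
    intro v hv hvx
    by_cases h : v ∈ Bv
    · exact Or.inl h
    · exact Or.inr ((hCm v).mpr ⟨hvx, hv, h⟩)
  have hWS : ∀ v ∈ S, v ≠ (x : V) → v ∈ Bv ∨ v ∈ Cv := fun v hv =>
    hcov v ((hW v).mpr (Or.inl hv))
  have hWF : ∀ E ∈ F, ∀ v ∈ E, v ≠ (x : V) → v ∈ Bv ∨ v ∈ Cv := fun E hE v hv =>
    hcov v ((hW v).mpr (Or.inr ⟨E, hE, hv⟩))
  have hCW : ∀ v ∈ Cv, v ∈ S ∨ ∃ E ∈ F, v ∈ E := fun v hv =>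
    (hW v).mp ((hCm v).mp hv).2.1
  have hBW : ∀ v ∈ Bv, v ∈ S ∨ ∃ E ∈ F, v ∈ E := fun v hv =>
    (hW v).mp ((hBv v).mp hv).1
  rcases hWS s hsS hsx with h | h
  · exact STW_core G A S F hT hF (x : V) Bv Cv hBCv hxBv hxCv hCvne hCW hWS hWF hno E₁ hE₁
      hxE₁ s hsS hsx h
  · exact STW_core G A S F hT hF (x : V) Cv Bv hBCv.symm hxCv hxBv hBvne hBW
      (fun v hv hvx => (hWS v hv hvx).symm) (fun E hE v hv hvx => (hWF E hE v hv hvx).symm)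
      (fun u hu v hv huv => hno v hv u hu huv.symm) E₁ hE₁ hxE₁ s hsS hsx h

end Pool.Agent.helper55.BL
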